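import Pool.Agent.Q227.WD.Red

/-!
# The Waiter-Client domination game is PSPACE-complete

The reduction is from quantified formulas in conjunctive normal form. Dominator (Waiter) plays the
existential variables, Staller (Client) the universal ones.

First a hypergraph is built; Staller wants to claim all vertices of an edge. For every variable `i`
there are the literal vertices `x_i`, `x'_i`; for an existential variable there are further `a_i`,
`q_i`, `r_i`, and for a universal one the partners `g_i`, `g'_i` of the literal vertices. Let `A_i`
be the set of all `a_k` with `k < i` existential. The edges are `A_i` together with

* `{a_i, x_i, x'_i}`, `{a_i, x_i, q_i}`, `{a_i, x'_i, q_i}`, `{x_i, q_i, r_i}`, `{x'_i, q_i, r_i}`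
  for `i` existential,
* `{l, q_i, y, g}` for `i` existential, `l` one of its literals, and `y` a literal of a universal
  variable `k > i` with partner `g`,
* `{x_i, x'_i}` for `i` universal,
* the literals of a clause (with `A` the set of all `a_k`).

Dominator offers `a_i` and the literal she wants to be true, then the other literal and `q_i`; if
Staller refuses `a_i` then `q_i, r_i` and the pairs `y, g` kill all edges. For a universal variable
she offers the two literals. Conversely, if the formula is false then Staller has a strategy: any
other offer on a level leads to two alive pairs with a common vertex (above a part of the chain of
the `a_k`), and he wins such a position, because every other use of a chain vertex gives him such a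
conflict on a lower level.

The graph has the vertices of the hypergraph and for every edge `e` more copies of a vertex
adjacent to the vertices of `e` than there are vertices and edges, so that Staller gets at least
one copy for each edge.
-/

namespace Pool.Agent.Results.MP_2d136f_lc.WCDomPSPACEComplete

open Pool.Agent.NPC Pool.Agent.H623R2.PS Pool.Agent.Q227.WD

/-- **WC-DOM is PSPACE-complete** under polynomial-time many-one reductions. -/
theorem result : PSPACEComplete (lang WCDom) := wcDom_complete

end Pool.Agent.Results.MP_2d136f_lc.WCDomPSPACEComplete
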